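import Pool.Agent.Q120.TT.Stm

/-! # Project TT (helper120), job TAILT (helper150) -/

set_option autoImplicit false

namespace Pool.Agent.Q150.TT

open Finset MeasureTheory Filter Pool.Agent.Q120.TT Pool.Agent.Q120.ET Pool.Agent.Q120.GM Pool.Agent.Q112.LE
open scoped Topology

theorem law_model {Ω : Type} [MeasurableSpace Ω] {μ : Measure Ω} [IsProbabilityMeasure μ] {A : Ω → Set ℕ}
    {p : ℕ → ℝ} (hA : IsModel μ p A) (B T : Finset ℕ) (hT : T ⊆ B) :
    lawOn μ A B T = prodOn p B T := by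
  classical
  unfold prodOn
  have h1 : {ω | ∀ n ∈ B, (n ∈ A ω ↔ n ∈ T)} =
      ⋂ n ∈ B, (if n ∈ T then {ω | n ∈ A ω} else {ω | n ∈ A ω}ᶜ) := by
    ext ω
    simp only [Set.mem_ofPred_eq, Set.mem_iInter]
    refine forall₂_congr fun n _ => ?_
    by_cases hn : n ∈ T
    · rw [if_pos hn]; simp [hn]
    · rw [if_neg hn]; simp [hn]
  have h2 := indep_many hA B (fun n => ({n} : Set ℕ)) (fun i _ j _ hij => by simpa using hij)
    (fun n => if n ∈ T then {ω | n ∈ A ω} else {ω | n ∈ A ω}ᶜ) (fun n _ => by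
      by_cases hn : n ∈ T
      · simp only [hn, if_true]
        exact F_mem (Set.mem_singleton n)
      · simp only [hn, if_false]
        exact MeasurableSet.compl (F_mem (Set.mem_singleton n)))
  unfold lawOn
  rw [h1, h2]
  have h3 : ∀ n ∈ B, μ.real (if n ∈ T then {ω | n ∈ A ω} else {ω | n ∈ A ω}ᶜ) =
      if n ∈ T then p n else 1 - p n := by
    intro n _
    by_cases hn : n ∈ T
    · rw [if_pos hn, if_pos hn, hA.prob]
    · rw [if_neg hn, if_neg hn, probReal_compl_eq_one_sub (hA.meas n), hA.prob]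
  rw [prod_congr rfl h3, prod_ite]
  congr 1
  · refine prod_congr ?_ fun _ _ => rfl
    ext n; simp only [mem_filter]; exact ⟨fun h => h.2, fun h => ⟨hT h, h⟩⟩
  · refine prod_congr ?_ fun _ _ => rfl
    ext n; rw [mem_filter, Finset.mem_sdiff]

section bern

variable {Ω : Type*} [MeasurableSpace Ω] {μ : Measure Ω} [IsProbabilityMeasure μ] {κ : Type*}

theorem bern_up {J : Finset κ} {G : κ → Set Ω} (hG : ∀ j ∈ J, MeasurableSet (G j)) (hm : Mutual μ J G)
    {S s : ℝ} (hS : S = ∑ a ∈ J, μ.real (G a)) (hs : 0 < s) :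
    μ.real {ω | S + s ≤ num J G ω} ≤ Real.exp (-(s ^ 2 / (4 * (S + s)))) := by
  have hS0 : 0 ≤ S := by rw [hS]; exact sum_nonneg fun _ _ => measureReal_nonneg
  rcases le_or_gt s S with h | h
  · have hSp : 0 < S := hs.trans_le h
    obtain ⟨l, hl⟩ : ∃ l, l = s / (2 * S) := ⟨_, rfl⟩
    have hl0 : 0 ≤ l := by rw [hl]; positivity
    have hl1 : l ≤ 1 := by rw [hl, div_le_one (by positivity)]; linarith
    have hlS : l * (2 * S) = s := by rw [hl]; field_simp
    have h1 := tail_up hG hm hl0 (S + s)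
    rw [← hS] at h1
    refine h1.trans (Real.exp_le_exp.2 ?_)
    have e1 : Real.exp l - 1 - l ≤ l ^ 2 :=
      (le_abs_self _).trans (Real.abs_exp_sub_one_sub_id_le (by rw [abs_of_nonneg hl0]; exact hl1))
    have e2 : (Real.exp l - 1) * S ≤ (l + l ^ 2) * S :=
      mul_le_mul_of_nonneg_right (by linarith) hSp.le
    have e3 : s ^ 2 / (4 * (S + s)) ≤ s ^ 2 / (4 * S) :=
      div_le_div_of_nonneg_left (by positivity) (by positivity) (by linarith)
    have e4 : s ^ 2 / (4 * S) = l ^ 2 * S := by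
      rw [div_eq_iff (by positivity), ← hlS]; ring
    have e5 : l * s = 2 * (l ^ 2 * S) := by rw [← hlS]; ring
    nlinarith
  · have h1 := tail_up hG hm zero_le_one (S + s)
    rw [← hS] at h1
    refine h1.trans (Real.exp_le_exp.2 ?_)
    have e1 := Real.exp_one_lt_d9
    have e2 : s ^ 2 / (4 * (S + s)) ≤ s / 4 := by
      rw [div_le_div_iff₀ (by positivity) (by norm_num)]
      nlinarith
    nlinarith

theorem bern_down {J : Finset κ} {G : κ → Set Ω} (hG : ∀ j ∈ J, MeasurableSet (G j)) (hm : Mutual μ J G)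
    {S s : ℝ} (hS : S = ∑ a ∈ J, μ.real (G a)) (hs : 0 < s) :
    μ.real {ω | num J G ω ≤ S - s} ≤ Real.exp (-(s ^ 2 / (4 * (S + s)))) := by
  have hS0 : 0 ≤ S := by rw [hS]; exact sum_nonneg fun _ _ => measureReal_nonneg
  rcases le_or_gt s S with h | h
  · have hSp : 0 < S := hs.trans_le h
    obtain ⟨l, hl⟩ : ∃ l, l = s / (2 * S) := ⟨_, rfl⟩
    have hl0 : 0 ≤ l := by rw [hl]; positivity
    have hl1 : l ≤ 1 := by rw [hl, div_le_one (by positivity)]; linarith
    have hlS : l * (2 * S) = s := by rw [hl]; field_simp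
    have h1 := tail_down hG hm hl0 (S - s)
    rw [← hS] at h1
    refine h1.trans (Real.exp_le_exp.2 ?_)
    have e1 : Real.exp (-l) - 1 - (-l) ≤ (-l) ^ 2 :=
      (le_abs_self _).trans (Real.abs_exp_sub_one_sub_id_le
        (by rw [abs_neg, abs_of_nonneg hl0]; exact hl1))
    have e2 : (Real.exp (-l) - 1) * S ≤ (-l + l ^ 2) * S :=
      mul_le_mul_of_nonneg_right (by linarith [neg_sq l]) hSp.le
    have e3 : s ^ 2 / (4 * (S + s)) ≤ s ^ 2 / (4 * S) :=
      div_le_div_of_nonneg_left (by positivity) (by positivity) (by linarith)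
    have e4 : s ^ 2 / (4 * S) = l ^ 2 * S := by
      rw [div_eq_iff (by positivity), ← hlS]; ring
    have e5 : l * s = 2 * (l ^ 2 * S) := by rw [← hlS]; ring
    nlinarith
  · have h1 : {ω | num J G ω ≤ S - s} = ∅ := by
      ext ω
      simp only [Set.mem_ofPred_eq, Set.mem_empty_iff_false, iff_false, not_le]
      have h2 : 0 ≤ num J G ω := by
        unfold num
        exact sum_nonneg fun a _ => Set.indicator_nonneg (fun _ _ => zero_le_one) _
      linarith
    rw [h1, measureReal_empty]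
    exact (Real.exp_pos _).le

theorem bern_two {J : Finset κ} {G : κ → Set Ω} (hG : ∀ j ∈ J, MeasurableSet (G j)) (hm : Mutual μ J G)
    {S s : ℝ} (hS : S = ∑ a ∈ J, μ.real (G a)) (hs : 0 < s) :
    μ.real {ω | s ≤ |num J G ω - S|} ≤ 2 * Real.exp (-(s ^ 2 / (4 * (S + s)))) := by
  have h3 : {ω | s ≤ |num J G ω - S|} ⊆ {ω | S + s ≤ num J G ω} ∪ {ω | num J G ω ≤ S - s} := by
    intro ω hω
    have hω' : s ≤ |num J G ω - S| := hω
    rcases le_abs.1 hω' with h | h
    · left
      show S + s ≤ num J G ω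
      linarith
    · right
      show num J G ω ≤ S - s
      linarith
  refine (measureReal_mono h3 (measure_ne_top _ _)).trans ((measureReal_union_le _ _).trans ?_)
  have := bern_up hG hm hS hs
  have := bern_down hG hm hS hs
  linarith

end bern

theorem t_TAILT : J_TAILT := by
  classical
  intro D H hDne hDH p hp k a b hka hab hbH V t hV ht
  have hmod : IsModel (prodMeasure p) p (trueSet (ι := ℕ)) :=
    isModel p (fun n => (hp n).1) (fun n => (hp n).2)
  obtain ⟨A, hAd⟩ : ∃ A : (ℕ → Bool) → Set ℕ, A = trueSet (ι := ℕ) := ⟨_, rfl⟩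
  rw [← hAd] at hmod
  have hA : IsRandomSet A := hmod.meas
  obtain ⟨G, hGd⟩ : ∃ G : ℕ → Set (ℕ → Bool), G = fun n => all A (D.image fun h => n + h) := ⟨_, rfl⟩
  have hGm : ∀ n, MeasurableSet (G n) := fun n => by rw [hGd]; exact meas_all hmod _
  have hGr : ∀ n, (prodMeasure p).real (G n) = ∏ h ∈ D, p (n + h) := by
    intro n
    rw [hGd]
    simp only
    rw [real_all hmod, prod_image (fun x _ y _ h => Nat.add_left_cancel h)]
  have hGmem : ∀ n ω, ω ∈ G n ↔ ∀ h ∈ D, n + h ∈ A ω := by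
    intro n ω
    rw [hGd]
    simp only [all, Set.mem_ofPred_eq, mem_image, forall_exists_index, and_imp,
      forall_apply_eq_imp_iff₂]
  -- the classes
  obtain ⟨M, hM⟩ : ∃ M : ℕ, M = H + 1 := ⟨_, rfl⟩
  have hM0 : 0 < M := by omega
  have hMr : (M : ℝ) = H + 1 := by rw [hM]; push_cast; ring
  have hMr0 : (0 : ℝ) < M := by exact_mod_cast hM0
  obtain ⟨J, hJ⟩ : ∃ J : ℕ → Finset ℕ, J = fun c => (Ico a b).filter fun n => n % M = c := ⟨_, rfl⟩
  have hJmem : ∀ c n, n ∈ J c ↔ n ∈ Ico a b ∧ n % M = c := fun c n => by rw [hJ, mem_filter]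
  have hsum : ∀ f : ℕ → ℝ, ∑ n ∈ Ico a b, f n = ∑ c ∈ range M, ∑ n ∈ J c, f n := by
    intro f
    rw [hJ]
    exact (sum_fiberwise_of_maps_to (fun n _ => mem_range.2 (Nat.mod_lt n hM0)) f).symm
  have hmut : ∀ c, Mutual (prodMeasure p) (J c) G := by
    intro c T hT
    apply indep_many hmod T (fun n => ((D.image fun h => n + h : Finset ℕ) : Set ℕ))
    · intro i hi j hj hij
      rw [Finset.disjoint_coe, Finset.disjoint_left]
      intro x hx hx'
      rw [mem_image] at hx hx'
      obtain ⟨h, hh, rfl⟩ := hx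
      obtain ⟨h', hh', he⟩ := hx'
      have h1 := (hJmem c i).1 (hT hi)
      have h2 := (hJmem c j).1 (hT hj)
      have h3 := hDH h hh
      have h4 := hDH h' hh'
      apply hij
      have h5 : i ≡ j [MOD M] := by
        unfold Nat.ModEq
        rw [h1.2, h2.2]
      rcases le_total i j with hle | hle
      · exact Nat.ModEq.eq_of_abs_lt h5 (by
          rw [abs_lt]; constructor <;> omega)
      · exact Nat.ModEq.eq_of_abs_lt h5 (by
          rw [abs_lt]; constructor <;> omega)
    · intro i _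
      rw [hGd]
      exact F_all fun x hx => Finset.mem_coe.2 hx
  obtain ⟨Ec, hEc⟩ : ∃ Ec : ℕ → ℝ, Ec = fun c => ∑ n ∈ J c, (prodMeasure p).real (G n) := ⟨_, rfl⟩
  have hE : EI p D a b = ∑ c ∈ range M, Ec c := by
    unfold EI
    rw [hsum, hEc]
    exact sum_congr rfl fun c _ => sum_congr rfl fun n _ => (hGr n).symm
  have hEc0 : ∀ c, 0 ≤ Ec c := fun c => by rw [hEc]; exact sum_nonneg fun _ _ => measureReal_nonneg
  have htup : ∀ ω, (tupI ((tr A (block k) ω : Finset ℕ) : Set ℕ) D a b : ℝ) =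
      ∑ c ∈ range M, num (J c) G ω := by
    intro ω
    unfold tupI num
    rw [← hsum, card_filter]
    push_cast
    refine sum_congr rfl fun n hn => ?_
    rw [mem_Ico] at hn
    have h1 : (∀ h ∈ D, n + h ∈ ((tr A (block k) ω : Finset ℕ) : Set ℕ)) ↔ ω ∈ G n := by
      rw [hGmem]
      refine forall₂_congr fun h hh => ?_
      rw [Finset.mem_coe, mem_tr]
      have h2 : n + h ∈ block k := by
        rw [block, mem_Ico]
        have := hDH h hh
        constructor <;> omega
      exact ⟨fun h => h.2, fun h => ⟨h2, h⟩⟩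
    by_cases h3 : ω ∈ G n
    · rw [if_pos (h1.2 h3), Set.indicator_of_mem h3]
    · rw [if_neg (fun h => h3 (h1.1 h)), Set.indicator_of_notMem h3]
  -- the event
  have hev := real_event (μ := prodMeasure p) hA (block k)
    (fun T : Finset ℕ => t ≤ |(tupI ((T : Finset ℕ) : Set ℕ) D a b : ℝ) - EI p D a b|)
  have hlaw : ∑ T ∈ (block k).powerset with
      t ≤ |(tupI ((T : Finset ℕ) : Set ℕ) D a b : ℝ) - EI p D a b|, lawOn (prodMeasure p) A (block k) T =
      ∑ T ∈ (block k).powerset with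
      t ≤ |(tupI ((T : Finset ℕ) : Set ℕ) D a b : ℝ) - EI p D a b|, prodOn p (block k) T := by
    refine sum_congr rfl fun T hT => ?_
    exact law_model hmod _ _ (mem_powerset.1 (mem_filter.1 hT).1)
  rw [← hlaw, ← hev]
  have hsub : {ω | t ≤ |(tupI ((tr A (block k) ω : Finset ℕ) : Set ℕ) D a b : ℝ) - EI p D a b|} ⊆
      ⋃ c ∈ range M, {ω | t / M ≤ |num (J c) G ω - Ec c|} := by
    intro ω hω
    have hω' : t ≤ |(tupI ((tr A (block k) ω : Finset ℕ) : Set ℕ) D a b : ℝ) - EI p D a b| := hω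
    rw [htup, hE, ← sum_sub_distrib] at hω'
    by_contra hcon
    simp only [Set.mem_iUnion, not_exists, Set.mem_ofPred_eq, not_le] at hcon
    have h1 := abs_sum_le_sum_abs (fun c => num (J c) G ω - Ec c) (range M)
    have h2 : ∑ c ∈ range M, |num (J c) G ω - Ec c| < ∑ c ∈ range M, t / M :=
      sum_lt_sum_of_nonempty ⟨0, mem_range.2 hM0⟩ fun c hc => hcon c hc
    rw [sum_const, card_range, nsmul_eq_mul] at h2
    have h3 : (M : ℝ) * (t / M) = t := by field_simp
    linarith
  refine (measureReal_mono hsub (measure_ne_top _ _)).trans ?_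
  refine (measureReal_biUnion_finset_le _ _).trans ?_
  have hVt : 0 ≤ V := le_trans (by rw [hE]; exact sum_nonneg fun c _ => hEc0 c) hV
  have hbound : ∀ c ∈ range M, (prodMeasure p).real {ω | t / M ≤ |num (J c) G ω - Ec c|} ≤
      2 * Real.exp (-(t ^ 2 / (4 * (H + 1) ^ 2 * (V + t)))) := by
    intro c hc
    refine (bern_two (fun j _ => hGm j) (hmut c) (by rw [hEc]) (by positivity)).trans ?_
    refine mul_le_mul_of_nonneg_left (Real.exp_le_exp.2 (neg_le_neg ?_)) (by norm_num)
    have h1 : Ec c ≤ V := by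
      refine le_trans ?_ hV
      rw [hE]
      exact single_le_sum (fun c _ => hEc0 c) hc
    have h2 : t / M ≤ t := by
      rw [div_le_iff₀ hMr0]
      have : (1 : ℝ) ≤ M := by exact_mod_cast hM0
      nlinarith
    rw [← hMr]
    have h3 : t ^ 2 / (4 * (M : ℝ) ^ 2 * (V + t)) = (t / M) ^ 2 / (4 * (V + t)) := by
      field_simp
    rw [h3]
    have h4 := hEc0 c
    have h5 : 0 < t / M := by positivity
    exact div_le_div_of_nonneg_left (by positivity) (by positivity) (by linarith)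
  refine (sum_le_sum hbound).trans (le_of_eq ?_)
  rw [sum_const, card_range, nsmul_eq_mul, hMr]
  ring

end Pool.Agent.Q150.TT
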