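import Pool.Agent.Q120.TT.Stm

/-! # Project TT (helper120), jobs EXI and EXC (helper150) -/

set_option autoImplicit false

namespace Pool.Agent.Q150.TT

open Finset MeasureTheory Filter Pool.Agent.Q120.TT Pool.Agent.Q120.ET ProbabilityTheory
open scoped Topology

/-- almost surely every block is a set of positive probability -/
theorem block_ae {p : ℕ → ℝ} {R : ℕ → Finset ℕ → ℝ} (hR : ∀ k, IsLaw p (block k) (R k)) :
    ∀ᵐ ω ∂(blockLaw R), ∀ k, ω k ⊆ block k ∧ R k (ω k) ≠ 0 := by
  classical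
  rw [ae_all_iff]
  intro k
  have h1 : blockLaw R ((fun ω => ω k) ⁻¹' {T | ¬ (T ⊆ block k ∧ R k T ≠ 0)}) = 0 := by
    rw [blockLaw_pre (fun k => (hR k).nonneg) (fun k => (hR k).total),
      blockMeasure_apply (hR k).nonneg]
    have h2 : ∑ T ∈ (block k).powerset with T ∈ {T | ¬ (T ⊆ block k ∧ R k T ≠ 0)}, R k T = 0 := by
      refine sum_eq_zero fun T hT => ?_
      rw [mem_filter, mem_powerset] at hT
      by_contra hne
      exact hT.2 ⟨hT.1, hne⟩
    rw [h2, ENNReal.ofReal_zero]
  exact h1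

theorem tr_block {ω : ℕ → Finset ℕ} {k : ℕ} (h : ω k ⊆ block k) :
    tr (fun ω : ℕ → Finset ℕ => blockSet ω) (block k) ω = ω k := by
  ext n
  rw [mem_tr]
  constructor
  · rintro ⟨h1, h2⟩
    exact (mem_blockSet h1 ω).1 h2
  · intro hn
    exact ⟨h hn, (mem_blockSet (h hn) ω).2 hn⟩

theorem pos_of {p : ℕ → ℝ} (hp : ∀ n, 0 ≤ p n) {R : ℕ → Finset ℕ → ℝ}
    (hR : ∀ k, IsLaw p (block k) (R k)) {ω : ℕ → Finset ℕ}
    (h : ∀ k, ω k ⊆ block k ∧ R k (ω k) ≠ 0) : ∀ n ∈ blockSet ω, 0 < p n := by
  intro n hn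
  have h1 : n ∈ ω (Nat.log 2 n) := hn
  obtain ⟨h2, h3⟩ := h (Nat.log 2 n)
  refine lt_of_le_of_ne (hp n) fun h0 => ?_
  apply h3
  apply (hR _).cont _ (mem_powerset.2 h2)
  unfold prodOn
  rw [prod_eq_zero h1 h0.symm, zero_mul]

theorem t_EXI : J_EXI := by
  classical
  intro p R hR hp
  have hprob : IsProbabilityMeasure (blockLaw R) :=
    isProb_blockLaw (fun k => (hR k).nonneg) (fun k => (hR k).total)
  refine ⟨ℕ → Finset ℕ, inferInstance, blockLaw R, hprob, fun ω => blockSet ω,
    isRandomSet_blockSet, ?_, ?_, ?_⟩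
  · filter_upwards [block_ae hR] with ω hω
    exact pos_of hp hR hω
  · intro k T hT
    exact lawOn_blockLaw (fun k => (hR k).nonneg) (fun k => (hR k).total) k hT
  · intro s hs
    have h1 : ∀ k, (blockLaw R) {ω | s k (tr (fun ω : ℕ → Finset ℕ => blockSet ω) (block k) ω)} =
        (blockLaw R) ((fun ω : ℕ → Finset ℕ => ω k) ⁻¹' {T | s k T}) := by
      intro k
      apply measure_congr
      filter_upwards [block_ae hR] with ω hω
      apply propext
      change s k (tr _ (block k) ω) ↔ s k (ω k)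
      rw [tr_block (hω k).1]
    have h2 : ∑' k, (blockLaw R) ((fun ω : ℕ → Finset ℕ => ω k) ⁻¹' {T | s k T}) = ⊤ := by
      by_contra hne
      apply hs
      have h3 := ENNReal.summable_toReal hne
      refine h3.congr fun k => ?_
      rw [Measure.real, h1 k]
    have h3 := measure_limsup_eq_one (μ := blockLaw R)
      (s := fun k => (fun ω : ℕ → Finset ℕ => ω k) ⁻¹' {T | s k T})
      (fun k => (measurable_pi_apply k) MeasurableSet.of_discrete)
      (indep_blockLaw (fun k => (hR k).nonneg) (fun k => (hR k).total) fun k => {T | s k T}) h2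
    have h4 : MeasurableSet (limsup (fun k => (fun ω : ℕ → Finset ℕ => ω k) ⁻¹' {T | s k T}) atTop) :=
      MeasurableSet.measurableSet_limsup fun k => (measurable_pi_apply k) MeasurableSet.of_discrete
    have h5 : ∀ᵐ ω ∂(blockLaw R),
        ω ∈ limsup (fun k => (fun ω : ℕ → Finset ℕ => ω k) ⁻¹' {T | s k T}) atTop := by
      rw [← prob_compl_eq_zero_iff h4] at h3
      exact h3
    filter_upwards [h5, block_ae hR] with ω hω hω2
    rw [mem_limsup_iff_frequently_mem] at hω
    refine hω.mono fun k hk => ?_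
    rw [tr_block (hω2 k).1]
    exact hk

theorem t_EXC : J_EXC := by
  classical
  intro p P Q hP hQ hp q hq0 hq1
  have hprobP : IsProbabilityMeasure (blockLaw P) :=
    isProb_blockLaw (fun k => (hP k).nonneg) (fun k => (hP k).total)
  have hprobQ : IsProbabilityMeasure (blockLaw Q) :=
    isProb_blockLaw (fun k => (hQ k).nonneg) (fun k => (hQ k).total)
  obtain ⟨μ, hμ⟩ : ∃ μ : Measure (ℕ → Finset ℕ), μ = ENNReal.ofReal (1 - q) • blockLaw P +
    ENNReal.ofReal q • blockLaw Q := ⟨_, rfl⟩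
  have happ : ∀ S : Set (ℕ → Finset ℕ), μ S = ENNReal.ofReal (1 - q) * blockLaw P S +
      ENNReal.ofReal q * blockLaw Q S := by
    intro S
    rw [hμ, Measure.add_apply, Measure.smul_apply, Measure.smul_apply, smul_eq_mul, smul_eq_mul]
  have hreal : ∀ S : Set (ℕ → Finset ℕ), μ.real S = (1 - q) * (blockLaw P).real S +
      q * (blockLaw Q).real S := by
    intro S
    rw [Measure.real, happ, ENNReal.toReal_add (by finiteness) (by finiteness), ENNReal.toReal_mul,
      ENNReal.toReal_mul, ENNReal.toReal_ofReal (by linarith), ENNReal.toReal_ofReal hq0]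
    rfl
  have hprob : IsProbabilityMeasure μ := by
    refine ⟨?_⟩
    rw [happ, measure_univ, measure_univ, mul_one, mul_one, ← ENNReal.ofReal_add (by linarith) hq0]
    simp
  refine ⟨ℕ → Finset ℕ, inferInstance, μ, hprob, fun ω => blockSet ω,
    isRandomSet_blockSet, ?_, ?_, ?_⟩
  · have h1 : ∀ {ν : Measure (ℕ → Finset ℕ)} {c : ENNReal} {F : (ℕ → Finset ℕ) → Prop},
        (∀ᵐ ω ∂ν, F ω) → ∀ᵐ ω ∂(c • ν), F ω := fun h => Measure.ae_smul_measure h _
    rw [hμ, ae_add_measure_iff]
    constructor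
    · apply h1
      filter_upwards [block_ae hP] with ω hω
      exact pos_of hp hP hω
    · apply h1
      filter_upwards [block_ae hQ] with ω hω
      exact pos_of hp hQ hω
  · intro k T hT
    rw [lawOn, hreal]
    have h1 := lawOn_blockLaw (fun k => (hP k).nonneg) (fun k => (hP k).total) k hT
    have h2 := lawOn_blockLaw (fun k => (hQ k).nonneg) (fun k => (hQ k).total) k hT
    rw [lawOn] at h1 h2
    rw [h1, h2]
  · intro s hs
    rw [hreal]
    have h1 : (blockLaw Q) {ω | ∀ k, s k (tr (fun ω : ℕ → Finset ℕ => blockSet ω) (block k) ω)} =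
        (blockLaw Q) Set.univ := by
      apply measure_congr
      rw [eventuallyEq_univ]
      filter_upwards [block_ae hQ] with ω hω k
      rw [tr_block (hω k).1]
      exact hs k _ (mem_powerset.2 (hω k).1) (hω k).2
    have h2 : (blockLaw Q).real
        {ω | ∀ k, s k (tr (fun ω : ℕ → Finset ℕ => blockSet ω) (block k) ω)} = 1 := by
      rw [Measure.real, h1, measure_univ, ENNReal.toReal_one]
    rw [h2, mul_one]
    have h3 : 0 ≤ (1 - q) * (blockLaw P).real
        {ω | ∀ k, s k (tr (fun ω : ℕ → Finset ℕ => blockSet ω) (block k) ω)} :=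
      mul_nonneg (by linarith) measureReal_nonneg
    linarith

end Pool.Agent.Q150.TT
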