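import Pool.Agent.Q120.TT.Stm

/-! # Project TT (helper120), job MEAN (helper150) -/

set_option autoImplicit false

namespace Pool.Agent.Q150.TT

open Finset MeasureTheory Filter Pool.Agent.Q120.TT Pool.Agent.Q120.ET Pool.Agent.Q120.GM
  Pool.Agent.Q120.CL Pool.Agent.Q120.MG Pool.Agent.Q120.HL
open scoped Topology

theorem card_image_le_of (s : Finset ℕ) (f g : ℕ → ℕ) (h : ∀ x ∈ s, ∀ y ∈ s, g x = g y → f x = f y) :
    (s.image f).card ≤ (s.image g).card := by
  classical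
  obtain ⟨φ, hφ⟩ : ∃ φ : ℕ → ℕ, ∀ x ∈ s, φ (g x) = f x := by
    refine ⟨fun y => if hy : ∃ x ∈ s, g x = y then f hy.choose else 0, fun x hx => ?_⟩
    have hy : ∃ x' ∈ s, g x' = g x := ⟨x, hx, rfl⟩
    simp only [dif_pos hy]
    exact h _ hy.choose_spec.1 x hx hy.choose_spec.2
  have h1 : s.image f ⊆ (s.image g).image φ := by
    intro y hy
    rw [mem_image] at hy
    obtain ⟨x, hx, rfl⟩ := hy
    rw [mem_image]
    exact ⟨g x, mem_image_of_mem _ hx, hφ x hx⟩
  exact (card_le_card h1).trans card_image_le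

/-- the reflected set -/
def refl (D : Finset ℕ) (H : ℕ) : Finset ℕ := D.image fun h => H - h

theorem mod_iff {H h h' p : ℕ} (hh : h ≤ H) (hh' : h' ≤ H) :
    (H - h) % p = (H - h') % p ↔ h % p = h' % p := by
  constructor
  · intro he
    have e : (H - h) ≡ (H - h') [MOD p] := he
    have e1 : h + h' + (H - h) ≡ h + h' + (H - h') [MOD p] := Nat.ModEq.add_left _ he
    have e2 : h + h' + (H - h) = h' + H := by omega
    have e3 : h + h' + (H - h') = h + H := by omega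
    rw [e2, e3] at e1
    exact (Nat.ModEq.add_right_cancel' H e1).symm
  · intro he
    have e : h ≡ h' [MOD p] := he
    have e1 : (H - h) + (H - h') + h' ≡ (H - h) + (H - h') + h [MOD p] :=
      Nat.ModEq.add_left _ e.symm
    have e2 : (H - h) + (H - h') + h' = (H - h) + H := by omega
    have e3 : (H - h) + (H - h') + h = (H - h') + H := by omega
    rw [e2, e3] at e1
    exact Nat.ModEq.add_right_cancel' H e1

theorem nu_refl (D : Finset ℕ) (H : ℕ) (hD : ∀ h ∈ D, h ≤ H) (p : ℕ) : nu (refl D H) p = nu D p := by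
  unfold nu refl
  rw [image_image]
  apply le_antisymm
  · exact card_image_le_of _ _ _ fun x hx y hy he => (mod_iff (hD x hx) (hD y hy)).2 he
  · exact card_image_le_of _ _ _ fun x hx y hy he => (mod_iff (hD x hx) (hD y hy)).1 he

theorem de_refl (D : Finset ℕ) (H : ℕ) (hD : ∀ h ∈ D, h ≤ H) (z : ℕ) : de (refl D H) z = de D z := by
  unfold de
  exact prod_congr rfl fun p _ => by rw [nu_refl D H hD]

theorem av_refl (D : Finset ℕ) (H : ℕ) (hD : ∀ h ∈ D, h ≤ H) (z n : ℕ) :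
    Av z (refl D H) (n + H) ↔ ∀ h ∈ D, Rough z (n + h) := by
  have key : ∀ p h : ℕ, h ≤ H → ((n + H) % p = (H - h) % p ↔ p ∣ n + h) := by
    intro p h hh
    have h1 : n + h = n + H - (H - h) := by omega
    rw [h1, ← Nat.modEq_iff_dvd' (by omega)]
    exact ⟨fun h => Eq.symm h, fun h => Eq.symm h⟩
  constructor
  · intro hav h hh p hp hpz hdvd
    apply hav p (mem_filter.2 ⟨mem_range.2 hpz, hp⟩)
    rw [(key p h (hD h hh)).2 hdvd]
    exact mem_image.2 ⟨H - h, mem_image_of_mem _ hh, rfl⟩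
  · intro hr p hp hmem
    rw [mem_filter, mem_range] at hp
    rw [mem_image] at hmem
    obtain ⟨y, hy, he⟩ := hmem
    unfold refl at hy
    rw [mem_image] at hy
    obtain ⟨h, hh, rfl⟩ := hy
    exact hr h hh p hp.2 hp.1 ((key p h (hD h hh)).1 he.symm)

open Classical in
theorem count_near (D : Finset ℕ) (H : ℕ) (hD : ∀ h ∈ D, h ≤ H) (z a b : ℕ) (hab : a ≤ b) :
    |((((Ico a b).filter fun n => ∀ h ∈ D, Rough z (n + h)).card : ℕ) : ℝ) - de D z * ((b : ℝ) - a)| ≤
      PQ z := by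
  have h1 := NA_near z (refl D H) (a + H) (b - a)
  have h2 : NA z (refl D H) (a + H) (b - a) =
      ((Ico a b).filter fun n => ∀ h ∈ D, Rough z (n + h)).card := by
    unfold NA
    symm
    apply card_nbij' (fun n => n + H) (fun n => n - H)
    · intro n hn
      rw [mem_coe, mem_filter, mem_Ico] at hn ⊢
      refine ⟨⟨?_, ?_⟩, (av_refl D H hD z n).2 hn.2⟩
      · change a + H ≤ n + H
        omega
      · change n + H < a + H + (b - a)
        omega
    · intro n hn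
      rw [mem_coe, mem_filter, mem_Ico] at hn ⊢
      refine ⟨⟨?_, ?_⟩, ?_⟩
      · change a ≤ n - H
        omega
      · change n - H < b
        omega
      rw [← av_refl D H hD z (n - H)]
      have : n - H + H = n := by omega
      rw [this]
      exact hn.2
    · intro n hn
      simp
    · intro n hn
      rw [mem_coe, mem_filter, mem_Ico] at hn
      simp only
      omega
  rw [h2, de_refl D H hD, Nat.cast_sub hab] at h1
  exact h1

theorem t_MEAN : J_MEAN := by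
  classical
  intro z D H hz h8 hDne hD ε hε
  have hL : 0 < Real.log 2 := Real.log_pos (by norm_num)
  have hL2 : (0.6931471803 : ℝ) < Real.log 2 := Real.log_two_gt_d9
  obtain ⟨r, hr⟩ : ∃ r, r = D.card := ⟨_, rfl⟩
  rw [← hr]
  have hS : Tendsto (fun k => Sz D (z k)) atTop (𝓝 (SS D)) := (Sz_tendsto D).comp hz
  have hρ : Tendsto (fun k : ℕ => ((k : ℝ) / (k + 1)) ^ r) atTop (𝓝 1) := by
    have h1 : Tendsto (fun k : ℕ => (k : ℝ) / (k + 1)) atTop (𝓝 1) := tendsto_natCast_div_add_atTop 1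
    have h2 := h1.pow r
    rwa [one_pow] at h2
  have hSρ : Tendsto (fun k : ℕ => ((k : ℝ) / (k + 1)) ^ r * Sz D (z k)) atTop (𝓝 (SS D)) := by
    have := hρ.mul hS
    rwa [one_mul] at this
  have e1 := hS.eventually (Iio_mem_nhds (show SS D < SS D + ε / 2 by linarith))
  have e2 := hSρ.eventually (Ioi_mem_nhds (show SS D - ε / 2 < SS D by linarith))
  have e3 := ev_two (2 / ε) r (show (0 : ℝ) < 1 / 2 by norm_num)
  filter_upwards [e1, e2, e3, h8, eventually_ge_atTop 8] with k h1 h2 h3 h4 h5 a b hka hab hbH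
  have hk0 : (0 : ℝ) < k := by
    have : 0 < k := by omega
    exact_mod_cast this
  have hk8 : (8 : ℝ) ≤ k := by exact_mod_cast h5
  obtain ⟨V, hV⟩ : ∃ V, V = Vf (z k) := ⟨_, rfl⟩
  have hV0 : 0 < V := by rw [hV]; exact Vf_pos _
  have hzk : (8 : ℝ) * z k ≤ k := by exact_mod_cast h4
  have hV1 : 1 / ((z k : ℝ) + 1) ≤ V := by rw [hV]; exact le_Vf2 _
  have hz0 : (0 : ℝ) ≤ z k := Nat.cast_nonneg _
  have hV4 : 1 ≤ V * (((z k : ℝ)) + 1) := by
    rw [div_le_iff₀ (by linarith)] at hV1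
    exact hV1
  have hV5 : 4 ≤ V * k := by nlinarith
  have hVk : 1 ≤ V * k := by linarith
  have hq : 1 ≤ V * (k * Real.log 2) := by nlinarith
  obtain ⟨K, hK⟩ : ∃ K, K = (k : ℝ) * Real.log 2 := ⟨_, rfl⟩
  obtain ⟨K1, hK1⟩ : ∃ K1, K1 = ((k : ℝ) + 1) * Real.log 2 := ⟨_, rfl⟩
  have hK0 : 0 < K := by rw [hK]; positivity
  have hK10 : 0 < K1 := by rw [hK1]; positivity
  obtain ⟨W, hW⟩ : ∃ W, W = (Ico a b).filter fun n => ∀ h ∈ D, Rough (z k) (n + h) := ⟨_, rfl⟩
  have hcount := count_near D H hD (z k) a b hab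
  rw [← hW] at hcount
  have hin : ∀ n ∈ Ico a b, ∀ h ∈ D, 2 ^ k ≤ n + h ∧ n + h < 2 ^ (k + 1) := by
    intro n hn h hh
    rw [mem_Ico] at hn
    have := hD h hh
    constructor <;> omega
  -- upper
  have hup : EI (pr z) D a b ≤ W.card * (1 / (V * K)) ^ r := by
    unfold EI
    rw [hW, card_filter]
    push_cast
    rw [sum_mul]
    refine sum_le_sum fun n hn => ?_
    by_cases hrough : ∀ h ∈ D, Rough (z k) (n + h)
    · rw [if_pos hrough, one_mul, hr, ← prod_const]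
      refine prod_le_prod (fun h _ => pr_nonneg z _) fun h hh => ?_
      rw [hV, hK]
      exact pr_le (by omega) (hin n hn h hh).1 (hin n hn h hh).2
    · rw [if_neg hrough, zero_mul]
      push Not at hrough
      obtain ⟨h, hh, hnr⟩ := hrough
      exact le_of_eq (prod_eq_zero hh (pr_zero (hin n hn h hh).1 (hin n hn h hh).2 hnr))
  have hlo : W.card * (1 / (V * K1)) ^ r ≤ EI (pr z) D a b := by
    unfold EI
    rw [hW, card_filter]
    push_cast
    rw [sum_mul]
    refine sum_le_sum fun n hn => ?_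
    by_cases hrough : ∀ h ∈ D, Rough (z k) (n + h)
    · rw [if_pos hrough, one_mul, hr, ← prod_const]
      refine prod_le_prod (fun h _ => by positivity) fun h hh => ?_
      rw [hV, hK1]
      rw [hV] at hq
      exact le_pr (by omega) hq (hin n hn h hh).1 (hin n hn h hh).2 (hrough h hh)
    · rw [if_neg hrough, zero_mul]
      exact prod_nonneg fun h _ => pr_nonneg z _
  -- the error
  obtain ⟨Q, hQ⟩ : ∃ Q : ℝ, Q = PQ (z k) := ⟨_, rfl⟩
  have hQ0 : 0 ≤ Q := by rw [hQ]; exact Nat.cast_nonneg _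
  have hQ2 : Q * Q ≤ 2 ^ k := by
    have h6 : Q ≤ 4 ^ (z k) := by rw [hQ]; exact_mod_cast PQ_le (z k)
    have h7 : (4 : ℝ) ^ (z k) * 4 ^ (z k) ≤ 2 ^ k := by
      have h8 : (4 : ℝ) = 2 ^ 2 := by norm_num
      rw [← pow_add, h8, ← pow_mul]
      exact pow_le_pow_right₀ (by norm_num) (by omega)
    exact (mul_le_mul h6 h6 hQ0 (by positivity)).trans h7
  have hQr : Q ≤ ((2 : ℝ) ^ k) ^ (1 / 2 : ℝ) := by
    rw [← Real.sqrt_eq_rpow]
    apply Real.le_sqrt_of_sq_le
    rw [sq]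
    exact hQ2
  have herr : Q / V ^ r ≤ ε / 2 * 2 ^ k := by
    have h6 : 1 / V ^ r ≤ (k : ℝ) ^ r := by
      rw [div_le_iff₀ (by positivity), ← mul_pow]
      exact one_le_pow₀ (by rw [mul_comm]; exact hVk)
    have h7 : (k : ℝ) ^ r ≤ ε / 2 * ((2 : ℝ) ^ k) ^ (1 / 2 : ℝ) := by
      have h8 : ε / 2 * (2 / ε * (k : ℝ) ^ r) = (k : ℝ) ^ r := by
        field_simp
      rw [← h8]
      exact mul_le_mul_of_nonneg_left h3 (by linarith)
    have h8 : ((2 : ℝ) ^ k) ^ (1 / 2 : ℝ) * ((2 : ℝ) ^ k) ^ (1 / 2 : ℝ) = 2 ^ k := by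
      rw [← Real.sqrt_eq_rpow]
      exact Real.mul_self_sqrt (by positivity)
    calc Q / V ^ r = Q * (1 / V ^ r) := by ring
      _ ≤ ((2 : ℝ) ^ k) ^ (1 / 2 : ℝ) * (ε / 2 * ((2 : ℝ) ^ k) ^ (1 / 2 : ℝ)) :=
          mul_le_mul hQr (h6.trans h7) (by positivity) (by positivity)
      _ = ε / 2 * (((2 : ℝ) ^ k) ^ (1 / 2 : ℝ) * ((2 : ℝ) ^ k) ^ (1 / 2 : ℝ)) := by ring
      _ = ε / 2 * 2 ^ k := by rw [h8]
  have hde : de D (z k) = Sz D (z k) * V ^ r := by
    rw [Sz_eq, ← hV, ← hr]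
    field_simp
  rw [hde, ← hQ] at hcount
  have hba0 : 0 ≤ (b : ℝ) - a := by
    have : (a : ℝ) ≤ b := by exact_mod_cast hab
    linarith
  have hba1 : (b : ℝ) - a ≤ 2 ^ k := by
    have h6 : b ≤ a + 2 ^ k := by
      have : 2 ^ (k + 1) = 2 ^ k + 2 ^ k := by ring
      omega
    have h7 : (b : ℝ) ≤ a + 2 ^ k := by exact_mod_cast h6
    linarith
  have hSz0 := Sz_nonneg D (z k)
  rw [abs_le] at hcount
  have hVr : 0 < V ^ r := by positivity
  have hKr : 0 < K ^ r := by positivity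
  rw [← hK]
  have h1' : Sz D (z k) < SS D + ε / 2 := h1
  have h2' : SS D - ε / 2 < ((k : ℝ) / (k + 1)) ^ r * Sz D (z k) := h2
  rw [abs_le]
  constructor
  · -- lower bound
    have h6 : (Sz D (z k) * V ^ r * ((b : ℝ) - a) - Q) * (1 / (V * K1)) ^ r ≤ EI (pr z) D a b := by
      refine le_trans (mul_le_mul_of_nonneg_right ?_ (by positivity)) hlo
      linarith [hcount.1]
    obtain ⟨ρ, hρ'⟩ : ∃ ρ, ρ = ((k : ℝ) / (k + 1)) ^ r := ⟨_, rfl⟩
    have hρ0 : 0 ≤ ρ := by rw [hρ']; positivity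
    have hρ1 : ρ ≤ 1 := by
      rw [hρ']
      refine pow_le_one₀ (by positivity) ?_
      rw [div_le_one (by positivity)]
      linarith
    have h7 : (Sz D (z k) * V ^ r * ((b : ℝ) - a) - Q) * (1 / (V * K1)) ^ r =
        (ρ * (Sz D (z k) * ((b : ℝ) - a)) - ρ * (Q / V ^ r)) / K ^ r := by
      have h8 : (1 / (V * K1)) ^ r = ρ * (1 / V ^ r) * (1 / K ^ r) := by
        rw [hρ', ← one_div_pow, ← one_div_pow, ← mul_pow, ← mul_pow, hK, hK1]
        congr 1
        field_simp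
      rw [h8]
      field_simp
    rw [h7] at h6
    rw [← hρ'] at h2'
    have h8 : -(ε * (2 ^ k / K ^ r)) + SS D * ((b : ℝ) - a) / K ^ r ≤ EI (pr z) D a b := by
      refine le_trans ?_ h6
      have h9 : -(ε * (2 ^ k / K ^ r)) + SS D * ((b : ℝ) - a) / K ^ r =
        (SS D * ((b : ℝ) - a) - ε * 2 ^ k) / K ^ r := by ring
      rw [h9]
      apply div_le_div_of_nonneg_right _ hKr.le
      have h10 : ρ * (Q / V ^ r) ≤ ε / 2 * 2 ^ k := by
        refine le_trans ?_ herr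
        have : 0 ≤ Q / V ^ r := by positivity
        nlinarith
      have h11 : (SS D - ε / 2) * ((b : ℝ) - a) ≤ ρ * Sz D (z k) * ((b : ℝ) - a) :=
        mul_le_mul_of_nonneg_right h2'.le hba0
      nlinarith
    linarith
  · -- upper bound
    have h6 : EI (pr z) D a b ≤ (Sz D (z k) * V ^ r * ((b : ℝ) - a) + Q) * (1 / (V * K)) ^ r := by
      refine hup.trans (mul_le_mul_of_nonneg_right ?_ (by positivity))
      linarith [hcount.2]
    have h7 : (Sz D (z k) * V ^ r * ((b : ℝ) - a) + Q) * (1 / (V * K)) ^ r =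
        (Sz D (z k) * ((b : ℝ) - a) + Q / V ^ r) / K ^ r := by
      rw [one_div_pow, mul_pow]
      field_simp
    rw [h7] at h6
    have h8 : EI (pr z) D a b ≤ ε * (2 ^ k / K ^ r) + SS D * ((b : ℝ) - a) / K ^ r := by
      refine le_trans h6 ?_
      have h9 : ε * (2 ^ k / K ^ r) + SS D * ((b : ℝ) - a) / K ^ r =
        (SS D * ((b : ℝ) - a) + ε * 2 ^ k) / K ^ r := by ring
      rw [h9]
      apply div_le_div_of_nonneg_right _ hKr.le
      have h11 : Sz D (z k) * ((b : ℝ) - a) ≤ (SS D + ε / 2) * ((b : ℝ) - a) :=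
        mul_le_mul_of_nonneg_right h1'.le hba0
      nlinarith
    linarith

end Pool.Agent.Q150.TT
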