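import Pool.Agent.Q120.TT.Stm

/-! # Project TT (helper120), job MIXL (helper150) -/

set_option autoImplicit false

namespace Pool.Agent.Q150.TT

open Finset MeasureTheory Filter Pool.Agent.Q120.TT
open scoped Topology

theorem isLaw_prodOn (p : ℕ → ℝ) (B : Finset ℕ) (hp : ∀ n ∈ B, 0 ≤ p n ∧ p n ≤ 1) :
    IsLaw p B (prodOn p B) where
  nonneg := by
    intro T hT
    rw [mem_powerset] at hT
    unfold prodOn
    refine mul_nonneg (prod_nonneg fun n hn => (hp n (hT hn)).1) (prod_nonneg fun n hn => ?_)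
    have := (hp n (mem_sdiff.1 hn).1).2
    linarith
  total := by
    unfold prodOn
    rw [← Finset.prod_add]
    refine Finset.prod_eq_one fun n _ => by ring
  cont := fun T _ h => h

theorem t_MIXL : J_MIXL := by
  intro p B hp
  have hP := isLaw_prodOn p B hp
  refine ⟨hP, fun R hR q hq0 hq1 => ⟨⟨?_, ?_, ?_⟩, ?_⟩⟩
  · intro T hT
    exact add_nonneg (mul_nonneg (by linarith) (hP.nonneg T hT)) (mul_nonneg hq0 (hR.nonneg T hT))
  · rw [sum_add_distrib, ← mul_sum, ← mul_sum, hP.total, hR.total]
    ring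
  · intro T hT h
    rw [h, hR.cont T hT h]
    ring
  · unfold entOf
    rw [mul_sum]
    refine sum_le_sum fun T hT => ?_
    rcases (hP.nonneg T hT).eq_or_lt with h0 | h0
    · have h1 := hR.cont T hT h0.symm
      rw [h1, ← h0]
      simp
    · obtain ⟨y, hy⟩ : ∃ y, y = R T / prodOn p B T := ⟨_, rfl⟩
      have hy0 : 0 ≤ y := by rw [hy]; exact div_nonneg (hR.nonneg T hT) h0.le
      have hRy : R T = prodOn p B T * y := by rw [hy]; field_simp
      have hmix : (1 - q) * prodOn p B T + q * R T = prodOn p B T * ((1 - q) * 1 + q * y) := by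
        rw [hRy]; ring
      have hconv := Real.convexOn_mul_log.2 (Set.mem_Ici.2 (zero_le_one (α := ℝ)))
        (Set.mem_Ici.2 hy0) (show (0 : ℝ) ≤ 1 - q by linarith) hq0 (by ring)
      simp only [smul_eq_mul, Real.log_one, mul_zero, zero_add] at hconv
      simp only
      rw [hmix, mul_div_cancel_left₀ _ h0.ne', ← hy]
      calc prodOn p B T * ((1 - q) * 1 + q * y) * Real.log ((1 - q) * 1 + q * y)
          = prodOn p B T * (((1 - q) * 1 + q * y) * Real.log ((1 - q) * 1 + q * y)) := by ring
        _ ≤ prodOn p B T * (q * (y * Real.log y)) := mul_le_mul_of_nonneg_left hconv h0.le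
        _ = q * (R T * Real.log y) := by rw [hRy]; ring

end Pool.Agent.Q150.TT
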